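import Pool.Agent.N720.VS.CBase
import Pool.Agent.N119.VS.Cal
import Pool.Agent.N424.VS.Pert

/-!
# VS/K3, part 4: the critical point of the potential of the clasp, and the window
(helper720)
-/

set_option autoImplicit false

namespace Pool.Agent.N720.VS

open Filter Finset Topology Metric
open Pool.Agent.W711.HT Pool.Agent.N561
open Pool.Agent.N839.VS (CR OR OR_sub_CR isOpen_OR isCompact_CR isOpen_DA isOpen_strip unif_seq
  cont_of_unif MM MM_pos one_le_MM factor_le Rp_le Sd_low Sd_succ Rp_succ half_sin absorb tend_floor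
  tend_ceil)
open Pool.Agent.N119.VS (WC WS isOpen_WC isOpen_WS two_mul_mem cos_mem sin_mem LL_deriv LS_deriv)
open scoped Real

/-- the derivative of the potential -/
noncomputable def QCd (ψ δ : ℂ) : ℂ :=
  Complex.log (2 * Complex.cos (π * δ + ψ / 2)) + Complex.log (2 * Complex.cos (π * δ - ψ / 2)) -
    3 * Complex.log (2 * Complex.sin (π * δ)) - π * Complex.I / 2 * (1 + 2 * δ)

/-- the domain of the potential -/
def DQ : Set (ℂ × ℂ) := {p | π * p.2 + p.1 / 2 ∈ WC ∧ π * p.2 - p.1 / 2 ∈ WC ∧ π * p.2 ∈ WS}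

theorem isOpen_DQ : IsOpen DQ := by
  have h1 : Continuous fun p : ℂ × ℂ => (π : ℂ) * p.2 + p.1 / 2 := by fun_prop
  have h2 : Continuous fun p : ℂ × ℂ => (π : ℂ) * p.2 - p.1 / 2 := by fun_prop
  have h3 : Continuous fun p : ℂ × ℂ => (π : ℂ) * p.2 := by fun_prop
  exact (isOpen_WC.preimage h1).inter ((isOpen_WC.preimage h2).inter (isOpen_WS.preimage h3))

theorem mem_DQ {ψ δ : ℂ} (h0 : 0 < δ.re) (h1 : 2 * π * δ.re + |ψ.re| < π) : (ψ, δ) ∈ DQ := by
  have hπ := Real.pi_pos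
  have h2 : (π * δ).re = π * δ.re := Complex.re_ofReal_mul _ _
  have h3 : (ψ / 2).re = ψ.re / 2 := by simp
  have h4 := abs_le.1 (le_refl |ψ.re|)
  have h5 := abs_nonneg ψ.re
  have h6 : 0 < π * δ.re := by positivity
  refine ⟨⟨?_, Or.inl ?_⟩, ⟨?_, Or.inl ?_⟩, ?_, ?_, Or.inl ?_⟩
  · show |(π * δ + ψ / 2).re| < π
    rw [Complex.add_re, h2, h3, abs_lt]
    constructor <;> linarith
  · show |(π * δ + ψ / 2).re| < π / 2
    rw [Complex.add_re, h2, h3, abs_lt]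
    constructor <;> linarith
  · show |(π * δ - ψ / 2).re| < π
    rw [Complex.sub_re, h2, h3, abs_lt]
    constructor <;> linarith
  · show |(π * δ - ψ / 2).re| < π / 2
    rw [Complex.sub_re, h2, h3, abs_lt]
    constructor <;> linarith
  · show -(π / 2) < (π * δ).re
    rw [h2]; linarith
  · show (π * δ).re < π
    rw [h2]; linarith
  · show 0 < (π * δ).re
    rw [h2]; exact h6

theorem QC_hasDeriv {ψ δ : ℂ} (h : (ψ, δ) ∈ DQ) : HasDerivAt (QC ψ) (QCd ψ δ) δ := by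
  have hπ : (π : ℂ) ≠ 0 := by exact_mod_cast Real.pi_pos.ne'
  obtain ⟨h1, h2, h3⟩ := h
  have e0 : HasDerivAt (fun δ : ℂ => (π : ℂ) * δ) π δ := by
    simpa using (hasDerivAt_id δ).const_mul (π : ℂ)
  have d1 : HasDerivAt (fun δ : ℂ => LL (π * δ + ψ / 2))
      (Complex.log (2 * Complex.cos (π * δ + ψ / 2)) * π) δ :=
    HasDerivAt.comp δ (h₂ := LL) (LL_deriv h1) (e0.add_const _)
  have d2 : HasDerivAt (fun δ : ℂ => LL (π * δ - ψ / 2))
      (Complex.log (2 * Complex.cos (π * δ - ψ / 2)) * π) δ :=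
    HasDerivAt.comp δ (h₂ := LL) (LL_deriv h2) (e0.sub_const _)
  have d3 : HasDerivAt (fun δ : ℂ => LS (π * δ))
      (Complex.log (2 * Complex.sin (π * δ)) * π) δ :=
    HasDerivAt.comp δ (h₂ := LS) (LS_deriv h3) e0
  have d4 : HasDerivAt (fun δ : ℂ => δ + δ ^ 2) (1 + 2 * δ) δ := by
    have h6 : HasDerivAt (fun δ : ℂ => δ ^ 2) (2 * δ) δ := by
      simpa using hasDerivAt_pow 2 δ
    exact (hasDerivAt_id' δ).add h6
  have h5 := (((d1.add d2).div_const (π : ℂ)).sub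
    ((d3.div_const (π : ℂ)).const_mul 3)).sub (d4.const_mul (π * Complex.I / 2))
  refine (h5.congr_deriv ?_)
  unfold QCd
  field_simp

theorem QCd_cont {p : ℂ × ℂ} (h : p ∈ DQ) : ContinuousAt (fun p : ℂ × ℂ => QCd p.1 p.2) p := by
  obtain ⟨h1, h2, h3⟩ := h
  unfold QCd
  have c1 : ContinuousAt (fun p : ℂ × ℂ => 2 * Complex.cos (π * p.2 + p.1 / 2)) p := by fun_prop
  have c2 : ContinuousAt (fun p : ℂ × ℂ => 2 * Complex.cos (π * p.2 - p.1 / 2)) p := by fun_prop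
  have c3 : ContinuousAt (fun p : ℂ × ℂ => 2 * Complex.sin (π * p.2)) p := by fun_prop
  exact (((c1.clog (two_mul_mem (cos_mem h1))).add (c2.clog (two_mul_mem (cos_mem h2)))).sub
    (continuousAt_const.mul (c3.clog (two_mul_mem (sin_mem h3))))).sub (by fun_prop)

/-- the exponentiated critical equation -/
theorem exp_QCd {ψ : ℂ} (h : (ψ, dc ψ) ∈ DQ)
    (h0 : 1 + 2 * Complex.I * Complex.cos (ψ / 2) ≠ 0) : Complex.exp (QCd ψ (dc ψ)) = 1 := by
  have hπ : (π : ℂ) ≠ 0 := by exact_mod_cast Real.pi_pos.ne'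
  obtain ⟨h1, h2, h3⟩ := h
  set δ : ℂ := dc ψ with hδ
  set c : ℂ := Complex.cos (ψ / 2) with hc
  set x : ℂ := Complex.exp (π * δ * Complex.I) with hx
  have hx0 : x ≠ 0 := Complex.exp_ne_zero _
  have hX : x ^ 2 = 1 + 2 * Complex.I * c := by
    rw [hx, ← Complex.exp_nat_mul]
    have e1 : ((2 : ℕ) : ℂ) * (π * δ * Complex.I) =
        Complex.log (1 + 2 * Complex.I * Complex.cos (ψ / 2)) := by
      rw [hδ, dc]
      field_simp
      push_cast
      ring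
    rw [e1, Complex.exp_log h0]
  have n1 : 2 * Complex.cos (π * δ + ψ / 2) ≠ 0 := Complex.slitPlane_ne_zero
    (two_mul_mem (cos_mem h1))
  have n2 : 2 * Complex.cos (π * δ - ψ / 2) ≠ 0 := Complex.slitPlane_ne_zero
    (two_mul_mem (cos_mem h2))
  have n3 : 2 * Complex.sin (π * δ) ≠ 0 := Complex.slitPlane_ne_zero
    (two_mul_mem (sin_mem h3))
  have hinv : Complex.exp (-(π * δ * Complex.I)) = x⁻¹ := by rw [Complex.exp_neg]
  have hcos : 2 * Complex.cos (π * δ) = x + x⁻¹ := by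
    rw [Complex.cos, neg_mul, hinv]
    ring
  have hsin : 2 * Complex.sin (π * δ) = -Complex.I * (x - x⁻¹) := by
    rw [Complex.sin, neg_mul, hinv]
    ring
  have hp : (2 * Complex.cos (π * δ + ψ / 2)) * (2 * Complex.cos (π * δ - ψ / 2)) =
      (2 * Complex.cos (π * δ)) ^ 2 - 4 + 4 * c ^ 2 := by
    rw [Complex.cos_add, Complex.cos_sub]
    have e1 := Complex.sin_sq_add_cos_sq (π * δ)
    have e2 := Complex.sin_sq_add_cos_sq (ψ / 2)
    rw [← hc] at e2 ⊢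
    linear_combination (-4 * Complex.sin (ψ / 2) ^ 2) * e1 +
      (4 * Complex.cos (π * δ) ^ 2 - 4) * e2
  have hE : Complex.exp (π * Complex.I / 2 * (1 + 2 * δ)) = Complex.I * x := by
    have e1 : π * Complex.I / 2 * (1 + 2 * δ) = π / 2 * Complex.I + π * δ * Complex.I := by ring
    rw [e1, Complex.exp_add, Complex.exp_pi_div_two_mul_I]
  unfold QCd
  rw [Complex.exp_sub, Complex.exp_sub, Complex.exp_add, Complex.exp_log n1, Complex.exp_log n2,
    show (3 : ℂ) * Complex.log (2 * Complex.sin (π * δ)) =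
      ((3 : ℕ) : ℂ) * Complex.log (2 * Complex.sin (π * δ)) by norm_num,
    Complex.exp_nat_mul, Complex.exp_log n3, hE, hp, div_div, div_eq_one_iff_eq (by
      refine mul_ne_zero (pow_ne_zero _ n3) (mul_ne_zero Complex.I_ne_zero hx0)), hsin, hcos]
  have hI : Complex.I ^ 2 = -1 := Complex.I_sq
  field_simp
  rw [hX]
  linear_combination (4 * c ^ 2 + 8 * Complex.I * c ^ 3 *
    (Complex.I ^ 4 - Complex.I ^ 2 + 1)) * hI

theorem dc_cont {ψ : ℂ} (h : 1 + 2 * Complex.I * Complex.cos (ψ / 2) ∈ Complex.slitPlane) :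
    ContinuousAt dc ψ := by
  unfold dc
  have c1 : ContinuousAt (fun ψ : ℂ => 1 + 2 * Complex.I * Complex.cos (ψ / 2)) ψ := by fun_prop
  exact (c1.clog h).div_const _

theorem slit0 : 1 + 2 * Complex.I * Complex.cos ((0 : ℂ) / 2) ∈ Complex.slitPlane := by
  rw [zero_div, Complex.cos_zero, Complex.mem_slitPlane_iff]
  left
  simp

theorem slit_ev : ∀ᶠ ψ : ℂ in 𝓝 0,
    1 + 2 * Complex.I * Complex.cos (ψ / 2) ∈ Complex.slitPlane := by
  have c1 : ContinuousAt (fun ψ : ℂ => 1 + 2 * Complex.I * Complex.cos (ψ / 2)) 0 := by fun_prop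
  exact c1.eventually_mem (Complex.isOpen_slitPlane.mem_nhds slit0)

/-- the critical equation near `0` -/
theorem crit_ev (hQ : S_CQ) : ∀ᶠ ψ : ℂ in 𝓝 0, HasDerivAt (QC ψ) 0 (dc ψ) := by
  obtain ⟨q1, q2, q3, q4, -⟩ := hQ
  have hπ := Real.pi_pos
  have hD0 : ((0 : ℂ), dc 0) ∈ DQ := mem_DQ q2 (by
    rw [Complex.zero_re, abs_zero, add_zero]; nlinarith)
  have hg0 : QCd 0 (dc 0) = 0 := (QC_hasDeriv hD0).unique q4
  have c0 : ContinuousAt (fun ψ : ℂ => (ψ, dc ψ)) 0 := continuousAt_id.prodMk (dc_cont slit0)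
  have c1 : ContinuousAt (fun ψ : ℂ => QCd ψ (dc ψ)) 0 :=
    ContinuousAt.comp' (g := fun p : ℂ × ℂ => QCd p.1 p.2) (f := fun ψ : ℂ => (ψ, dc ψ))
      (QCd_cont hD0) c0
  have e1 : ∀ᶠ ψ : ℂ in 𝓝 0, ‖QCd ψ (dc ψ)‖ < 1 := by
    refine c1.norm.eventually_lt_const ?_
    simp only [hg0, norm_zero]
    norm_num
  have e2 : ∀ᶠ ψ : ℂ in 𝓝 0, (ψ, dc ψ) ∈ DQ := c0.eventually_mem (isOpen_DQ.mem_nhds hD0)
  filter_upwards [e1, e2, slit_ev] with ψ h1 h2 h3
  have h4 := exp_QCd h2 (Complex.slitPlane_ne_zero h3)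
  obtain ⟨n, hn⟩ := Complex.exp_eq_one_iff.1 h4
  have h5 : QCd ψ (dc ψ) = 0 := by
    have hn0 : n = 0 := by
      by_contra hcon
      have h6 : (1 : ℝ) ≤ |(n : ℝ)| := by exact_mod_cast Int.one_le_abs hcon
      rw [hn, norm_mul, norm_mul, norm_mul, Complex.norm_I, Complex.norm_intCast,
        Complex.norm_real, Real.norm_of_nonneg hπ.le] at h1
      have h7 : ‖(2 : ℂ)‖ = 2 := by norm_num
      rw [h7] at h1
      have := Real.pi_gt_three
      nlinarith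
    rw [hn, hn0]
    simp
  rw [← h5]
  exact QC_hasDeriv h2

theorem PQ0 {b' : ℝ} (hb' : b' < 1 / 2) : (0 : ℂ) ∈ PQ b' := by
  have hπ := Real.pi_pos
  show 2 * π * b' + |(0 : ℂ).re| < π
  rw [Complex.zero_re, abs_zero, add_zero]
  nlinarith

theorem FC_cont (T : Dat) {a' b' h : ℝ} (ha' : 0 < a') {p : ℂ} (hp : p ∈ PQ b')
    (hs : 1 + 2 * Complex.I * Complex.cos (p / 2) ∈ Complex.slitPlane)
    (hd : dc p ∈ CR a' b' h) : ContinuousAt FC p := by
  unfold FC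
  exact ContinuousAt.comp' (g := fun p : ℂ × ℂ => QC p.1 p.2) (f := fun ψ : ℂ => (ψ, dc ψ))
    (QC_cont T ha' hp hd) (continuousAt_id.prodMk (dc_cont hs))

/-- persistence of the strict inequalities -/
theorem side_ev (T : Dat) {a' b' h : ℝ} (ha' : 0 < a') (hb' : b' < 1 / 2)
    (hd : dc 0 ∈ CR a' b' h)
    {K : Set ℝ} (hK : IsCompact K) {f : ℂ × ℝ → ℂ} {c : ℂ × ℝ → ℝ}
    (hf : ∀ t ∈ K, ContinuousAt f (0, t)) (hc : ∀ t ∈ K, ContinuousAt c (0, t))
    (hfm : ∀ t ∈ K, f (0, t) ∈ CR a' b' h)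
    (hlt : ∀ t ∈ K, (QC 0 (f (0, t))).re + c (0, t) < (FC 0).re) :
    ∀ᶠ p in 𝓝 (0 : ℂ), ∀ t ∈ K, (QC p (f (p, t))).re + c (p, t) < (FC p).re := by
  refine hK.eventually_forall_of_forall_eventually fun t ht => ?_
  have c1 := QC_cont T ha' (PQ0 hb') (hfm t ht)
  have c2 : ContinuousAt (fun x : ℂ × ℝ => QC x.1 (f x)) (0, t) :=
    ContinuousAt.comp' (g := fun x : ℂ × ℂ => QC x.1 x.2)
      (f := fun x : ℂ × ℝ => (x.1, f x)) c1 (continuousAt_fst.prodMk (hf t ht))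
  have c3 : ContinuousAt (fun x : ℂ × ℝ => FC x.1) (0, t) :=
    ContinuousAt.comp' (g := fun p : ℂ => FC p)
      (f := fun x : ℂ × ℝ => x.1) (FC_cont T ha' (PQ0 hb') slit0 hd) continuousAt_fst
  have c4 : ContinuousAt (fun x : ℂ × ℝ => (QC x.1 (f x)).re + c x) (0, t) :=
    (Complex.continuous_re.continuousAt.comp c2).add (hc t ht)
  have c5 : ContinuousAt (fun x : ℂ × ℝ => (FC x.1).re) (0, t) :=
    Complex.continuous_re.continuousAt.comp c3
  exact c4.eventually_lt c5 (hlt t ht)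

/-- the window -/
theorem win (T : Dat) (hW : S_LAPW) (hQ : S_CQ) (hP : S_PERT) :
    ∃ a₀ b₀ : ℝ, 0 < a₀ ∧ b₀ < 1 / 2 ∧
    ∀ a b : ℝ, 0 < a → a ≤ a₀ → b₀ ≤ b → b < 1 / 2 →
    a < b ∧ ∃ a' b' h : ℝ, 0 < a' ∧ a' < a ∧ b < b' ∧ b' < 1 / 2 ∧ 0 < h ∧
    ∀ᶠ p in 𝓝 (0 : ℂ), p ∈ PQ b' ∧ (QC p b).re < (FC p).re ∧ ContinuousAt FC p ∧
      ∀ ψ : ℕ → ℂ, Tendsto ψ atTop (𝓝 p) → (∀ N, ψ N ∈ PQ b') →
      Tendsto (fun N : ℕ => Real.log ‖∑ d ∈ Ico (⌈a * N⌉₊) (⌊b * N⌋₊),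
        Complex.exp (N * qc T (ψ N) N ((d : ℂ) / N))‖ / N) atTop (𝓝 (FC p).re) := by
  have hπ := Real.pi_pos
  have hcrit := crit_ev hQ
  obtain ⟨f1, f2, f3, f4, f5, f6, f7, a₀, b₀, s1, s2, s3, s4, s5⟩ := hQ
  refine ⟨a₀, b₀, s1, s4, fun a b ha haa₀ hbb₀ hb => ?_⟩
  obtain ⟨t1, t2, t3⟩ := s5 a b ha haa₀ hbb₀ hb
  set z₀ : ℂ := dc 0 with hz₀
  have hza : a < z₀.re := by linarith
  have hzb : z₀.re < b := by linarith
  obtain ⟨h, hh1⟩ : ∃ h : ℝ, |z₀.im| < h := ⟨|z₀.im| + 1, by linarith⟩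
  have hh : 0 < h := (abs_nonneg _).trans_lt hh1
  have hb'1 : b < (b + 1 / 2) / 2 := by linarith
  have hb'2 : (b + 1 / 2) / 2 < 1 / 2 := by linarith
  have hb0 : 0 < b := by linarith
  have ha2 : 0 < a / 2 := by linarith
  refine ⟨by linarith, a / 2, (b + 1 / 2) / 2, h, by linarith, by linarith, hb'1, hb'2, hh, ?_⟩
  have hp₀ := PQ0 hb'2
  have cd : ContinuousAt dc 0 := dc_cont slit0
  have hz₀m : z₀ ∈ OR (a / 2) ((b + 1 / 2) / 2) h := ⟨by linarith, by linarith, hh1⟩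
  have hz₀C := OR_sub_CR _ _ _ hz₀m
  have hev1 : ∀ᶠ p in 𝓝 (0 : ℂ), p ∈ PQ ((b + 1 / 2) / 2) := (isOpen_PQ _).mem_nhds hp₀
  -- the line through the critical point
  have q1 : ∀ᶠ p in 𝓝 (0 : ℂ), DifferentiableOn ℂ (QC p) (OR (a / 2) ((b + 1 / 2) / 2) h) := by
    filter_upwards [hev1] with p hp
    exact QC_diff T ha2 hp
  have q5 : ∀ᶠ p in 𝓝 (0 : ℂ), deriv (QC p) (dc p) = 0 := by
    filter_upwards [hcrit] with p hp
    exact hp.deriv
  have q6 : ∀ x : ℝ, a ≤ x → x ≤ b →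
      (x + z₀.im * Complex.I : ℂ) ∈ OR (a / 2) ((b + 1 / 2) / 2) h := by
    intro x hx1 hx2
    refine ⟨?_, ?_, ?_⟩
    · simp; linarith
    · simp; linarith
    · simpa using hh1
  have hpert := hP ℂ (𝓝 (0 : ℂ)) (fun p => QC p) (QC 0) (OR (a / 2) ((b + 1 / 2) / 2) h)
    dc z₀ a b (isOpen_OR _ _ _) q1 (QC_diff T ha2 hp₀) (QC_unif T ha2 hp₀) cd q5 q6 hza hzb f5
    (fun x hx1 hx2 hx3 => f7 x (by linarith) (by linarith) hx3)
  have cre : ContinuousAt (fun p : ℂ => (dc p).re) 0 := Complex.continuous_re.continuousAt.comp cd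
  have cim : ContinuousAt (fun p : ℂ => (dc p).im) 0 := Complex.continuous_im.continuousAt.comp cd
  have hzim : ∀ᶠ p in 𝓝 (0 : ℂ), (dc p).im < 0 := cim.eventually_lt_const f1
  have hzim2 : ∀ᶠ p in 𝓝 (0 : ℂ), |(dc p).im| < h := cim.abs.eventually_lt_const hh1
  have cim' : ∀ t : ℝ, ContinuousAt (fun x : ℂ × ℝ => (dc x.1).im) (0, t) := fun t =>
    ContinuousAt.comp' (g := fun p : ℂ => (dc p).im)
      (f := fun x : ℂ × ℝ => x.1) cim continuousAt_fst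
  have cim'' : ∀ t : ℝ, ContinuousAt (fun x : ℂ × ℝ => ((dc x.1).im : ℂ)) (0, t) := fun t =>
    Complex.continuous_ofReal.continuousAt.comp (cim' t)
  have cx2 : ∀ t : ℝ, ContinuousAt (fun x : ℂ × ℝ => (x.2 : ℂ)) (0, t) := fun t =>
    Complex.continuous_ofReal.continuousAt.comp continuousAt_snd
  have habs : |z₀.im| = -z₀.im := abs_of_neg f1
  -- membership in the closed rectangle
  have hmem : ∀ x : ℝ, a ≤ x → x ≤ b → ∀ y : ℝ, |y| ≤ |z₀.im| →
      (x : ℂ) + y * Complex.I ∈ CR (a / 2) ((b + 1 / 2) / 2) h := by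
    intro x hx1 hx2 y hy
    refine ⟨?_, ?_, ?_⟩
    · simp; linarith
    · simp; linarith
    · simp; linarith
  have hty : ∀ t ∈ Set.Icc (0:ℝ) 1, |t * z₀.im| ≤ |z₀.im| := by
    intro t ht
    rw [abs_mul, abs_of_nonneg ht.1]
    exact mul_le_of_le_one_left (abs_nonneg _) ht.2
  have hty' : ∀ t ∈ Set.Icc (0:ℝ) 1, |-(t * z₀.im)| ≤ |z₀.im| := by
    intro t ht
    rw [abs_neg]
    exact hty t ht
  -- the lower halves of the vertical sides
  have low : ∀ x : ℝ, a ≤ x → x ≤ b → (∀ y : ℝ, z₀.im ≤ y → y ≤ 0 →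
      (QC 0 (x + y * Complex.I)).re < (FC 0).re) →
      ∀ᶠ p in 𝓝 (0 : ℂ), ∀ t ∈ Set.Icc (0:ℝ) 1,
        (QC p (x + ((t : ℂ) * ((dc p).im : ℂ)) * Complex.I)).re + 0 < (FC p).re := by
    intro x hx1 hx2 hx3
    refine side_ev T ha2 hb'2 hz₀C isCompact_Icc
      (f := fun q => (x : ℂ) + ((q.2 : ℂ) * ((dc q.1).im : ℂ)) * Complex.I)
      (c := fun _ => 0) ?_ ?_ ?_ ?_
    · intro t ht
      exact continuousAt_const.add (((cx2 t).mul (cim'' t)).mul continuousAt_const)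
    · intro t ht
      exact continuousAt_const
    · intro t ht
      have := hmem x hx1 hx2 (t * z₀.im) (hty t ht)
      simpa using this
    · intro t ht
      have h1 := hx3 (t * z₀.im) (by nlinarith [ht.1, ht.2]) (by nlinarith [ht.1, ht.2])
      simpa using h1
  -- the upper halves
  have upp : ∀ x : ℝ, a ≤ x → x ≤ b → (∀ y : ℝ, 0 ≤ y → y ≤ -z₀.im →
      (QC 0 (x + y * Complex.I)).re - 2 * π * y < (FC 0).re) →
      ∀ᶠ p in 𝓝 (0 : ℂ), ∀ t ∈ Set.Icc (0:ℝ) 1,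
        (QC p (x + (-((t : ℂ) * ((dc p).im : ℂ))) * Complex.I)).re +
          2 * π * (t * (dc p).im) < (FC p).re := by
    intro x hx1 hx2 hx3
    refine side_ev T ha2 hb'2 hz₀C isCompact_Icc
      (f := fun q => (x : ℂ) + (-((q.2 : ℂ) * ((dc q.1).im : ℂ))) * Complex.I)
      (c := fun q => 2 * π * (q.2 * (dc q.1).im)) ?_ ?_ ?_ ?_
    · intro t ht
      exact continuousAt_const.add ((((cx2 t).mul (cim'' t)).neg).mul continuousAt_const)
    · intro t ht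
      exact continuousAt_const.mul (continuousAt_snd.mul (cim' t))
    · intro t ht
      have := hmem x hx1 hx2 (-(t * z₀.im)) (hty' t ht)
      simpa using this
    · intro t ht
      have h1 := hx3 (-(t * z₀.im)) (by nlinarith [ht.1, ht.2]) (by nlinarith [ht.1, ht.2])
      have e1 : (((-(t * z₀.im) : ℝ)) : ℂ) = -((t : ℂ) * (z₀.im : ℂ)) := by push_cast; ring
      rw [e1] at h1
      simp only [← hz₀]
      linarith
  have topp : ∀ᶠ p in 𝓝 (0 : ℂ), ∀ x ∈ Set.Icc a b,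
        (QC p (x - ((dc p).im : ℂ) * Complex.I)).re + 2 * π * (dc p).im < (FC p).re := by
    refine side_ev T ha2 hb'2 hz₀C isCompact_Icc
      (f := fun q => (q.2 : ℂ) - ((dc q.1).im : ℂ) * Complex.I)
      (c := fun q => 2 * π * (dc q.1).im) ?_ ?_ ?_ ?_
    · intro t ht
      exact (cx2 t).sub ((cim'' t).mul continuousAt_const)
    · intro t ht
      exact continuousAt_const.mul (cim' t)
    · intro t ht
      have := hmem t ht.1 ht.2 (-z₀.im) (by rw [abs_neg])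
      simpa [sub_eq_add_neg] using this
    · intro t ht
      exact t3 t (by linarith [ht.1]) ht.2
  have hab : a ≤ b := by linarith
  filter_upwards [hev1, hpert, hcrit, slit_ev, cd.eventually_mem ((isOpen_OR _ _ _).mem_nhds hz₀m),
    cre.eventually_const_lt hza, cre.eventually_lt_const hzb, hzim, hzim2,
    low a le_rfl hab fun y h1 h2 => (t1 y h1 h2).1,
    low b hab le_rfl fun y h1 h2 => (t1 y h1 h2).2,
    upp a le_rfl hab fun y h1 h2 => (t2 y h1 h2).1,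
    upp b hab le_rfl fun y h1 h2 => (t2 y h1 h2).2, topp]
    with p k1 hpp hcp hsp hdp k2 k3 g2 g2' g3 g4 g5 g6 g7
  have hlow : ∀ y : ℝ, (dc p).im ≤ y → y ≤ 0 →
      (QC p (a + y * Complex.I)).re < (FC p).re ∧
      (QC p (b + y * Complex.I)).re < (FC p).re := by
    intro y hy1 hy2
    have e1 : y / (dc p).im ∈ Set.Icc (0:ℝ) 1 :=
      ⟨div_nonneg_of_nonpos hy2 g2.le, by rw [div_le_one_of_neg g2]; exact hy1⟩
    have e2 : ((y / (dc p).im : ℝ) : ℂ) * ((dc p).im : ℂ) = y := by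
      rw [← Complex.ofReal_mul, div_mul_cancel₀ _ g2.ne]
    have h3 := g3 _ e1
    have h4 := g4 _ e1
    rw [e2, add_zero] at h3 h4
    exact ⟨h3, h4⟩
  have hupp : ∀ y : ℝ, 0 ≤ y → y ≤ -(dc p).im →
      (QC p (a + y * Complex.I)).re - 2 * π * y < (FC p).re ∧
      (QC p (b + y * Complex.I)).re - 2 * π * y < (FC p).re := by
    intro y hy1 hy2
    have e1 : (-y) / (dc p).im ∈ Set.Icc (0:ℝ) 1 :=
      ⟨div_nonneg_of_nonpos (by linarith) g2.le, by
        rw [div_le_one_of_neg g2]; linarith⟩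
    have e3 : ((-y) / (dc p).im) * (dc p).im = -y :=
      div_mul_cancel₀ _ g2.ne
    have e2 : -((((-y) / (dc p).im : ℝ) : ℂ) * ((dc p).im : ℂ)) = y := by
      rw [← Complex.ofReal_mul, e3]
      simp
    have h3 := g5 _ e1
    have h4 := g6 _ e1
    rw [e2, e3] at h3 h4
    exact ⟨by linarith, by linarith⟩
  refine ⟨k1, ?_, FC_cont T ha2 k1 hsp (OR_sub_CR _ _ _ hdp), fun ψ hψ hPP => ?_⟩
  · have := (hlow 0 g2.le le_rfl).2
    simpa using this
  have hmem' : ∀ x y : ℝ, a ≤ x → x ≤ b → |y| ≤ -(dc p).im →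
      (x : ℂ) + y * Complex.I ∈ OR (a / 2) ((b + 1 / 2) / 2) h := by
    intro x y hx1 hx2 hy
    refine ⟨?_, ?_, ?_⟩
    · simp; linarith
    · simp; linarith
    · rw [abs_of_neg g2] at g2'
      simp
      linarith
  exact hW (fun N => qc T (ψ N) N) (QC p) (OR (a / 2) ((b + 1 / 2) / 2) h) a b
    (dc p) (fun N => ⌈a * N⌉₊) (fun N => ⌊b * N⌋₊) (isOpen_OR _ _ _)
    (Filter.eventually_atTop.2 ⟨1, fun N hN =>
      (qc_diff T ha2 (hPP N) hN).mono (OR_sub_CR _ _ _)⟩)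
    (QC_diff T ha2 k1)
    ((qc_unif T ha2 k1 hψ).mono (OR_sub_CR _ _ _))
    hmem' g2 (tend_ceil ha) (tend_floor hb0) k2 k3 hcp.deriv hpp.1 hpp.2 hlow hupp
    (fun x hx1 hx2 => g7 x ⟨hx1, hx2⟩)

end Pool.Agent.N720.VS
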