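import Pool.Agent.N720.VS.CCore
import Pool.Agent.N720.VS.CCrit
import Pool.Agent.N789.VS.LapW
import Pool.Agent.TH653.Z.Half
import Pool.Agent.W583.HTSeq

/-!
# VS/K3: asymptotics of the clasp sum near `ψ = 0`
(helper720, subtask 301 of helper561)
-/

set_option autoImplicit false

namespace Pool.Agent.N720.VS

open Filter Finset Topology Metric
open Pool.Agent.W711.HT Pool.Agent.N561
open Pool.Agent.N839.VS (MM MM_pos one_le_MM)
open scoped Real

/-- **Job K3.** -/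
theorem cnear (hQ : S_CQ) : S_CNEAR := by
  have hπ := Real.pi_pos
  have hM := MM_pos
  obtain ⟨T⟩ := exists_Dat Pool.Agent.N207.VS.lapl
  obtain ⟨a₀, b₀, ha₀, hb₀, hw⟩ := win T Pool.Agent.N789.VS.lapw hQ Pool.Agent.N424.VS.pert
  obtain ⟨L₀, hL₀⟩ : ∃ L₀ : ℝ, L₀ = (FC 0).re := ⟨_, rfl⟩
  have hL0 : 0 < L₀ := by rw [hL₀]; exact hQ.2.2.2.2.2.1
  obtain ⟨τ, hτ, hhalf⟩ := Pool.Agent.TH653.Z.half (L₀ / 4) (by positivity)
  obtain ⟨a₁, b₁, ha₁, ha₁6, hb₁3, hb₁, hβ, hbM⟩ := exists_ab (β := L₀ / 4) (by positivity)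
  have hapos : 0 < min a₀ a₁ := lt_min ha₀ ha₁
  have hblt : max b₀ ((b₁ + 1 / 2) / 2) < 1 / 2 := max_lt hb₀ (by linarith)
  obtain ⟨hab, a', b', h, ha', haa, hbb, hb', hh, hev⟩ := hw (min a₀ a₁)
    (max b₀ ((b₁ + 1 / 2) / 2)) hapos (min_le_left _ _) (le_max_left _ _) hblt
  obtain ⟨a, hadef⟩ : ∃ a : ℝ, a = min a₀ a₁ := ⟨_, rfl⟩
  obtain ⟨b, hbdef⟩ : ∃ b : ℝ, b = max b₀ ((b₁ + 1 / 2) / 2) := ⟨_, rfl⟩
  rw [← hadef, ← hbdef] at hab hev
  rw [← hadef] at haa hapos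
  rw [← hbdef] at hbb hblt
  have haβ := hβ a hapos (by rw [hadef]; exact min_le_right _ _)
  have hb₁b : b₁ < b := by
    have := le_max_right b₀ ((b₁ + 1 / 2) / 2)
    rw [← hbdef] at this
    linarith
  have hF0 : ContinuousAt FC 0 := hev.self_of_nhds.2.2.1
  have e1 : ∀ᶠ p in 𝓝 (0 : ℂ), L₀ / 2 < (FC p).re := by
    refine (Complex.continuous_re.continuousAt.comp hF0).eventually_const_lt ?_
    simp only [Function.comp]
    rw [← hL₀]
    linarith
  have e2 : ∀ᶠ p : ℂ in 𝓝 0, |p.im| < min 2 τ := by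
    have : ContinuousAt (fun p : ℂ => |p.im|) 0 := Complex.continuous_im.abs.continuousAt
    refine this.eventually_lt_const ?_
    simp only [Complex.zero_im, abs_zero]
    exact lt_min (by norm_num) hτ
  have e3 : ∀ᶠ p : ℂ in 𝓝 0, |p.re| < π := by
    have : ContinuousAt (fun p : ℂ => |p.re|) 0 := Complex.continuous_re.abs.continuousAt
    refine this.eventually_lt_const ?_
    simp only [Complex.zero_re, abs_zero]
    exact hπ
  have e4 : ∀ᶠ p : ℂ in 𝓝 0, ‖2 * Complex.cos p - 2‖ < 1 / (2 * MM) := by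
    have : ContinuousAt (fun p : ℂ => ‖2 * Complex.cos p - 2‖) 0 := by fun_prop
    refine this.eventually_lt_const ?_
    simp only [Complex.cos_zero, mul_one, sub_self, norm_zero]
    positivity
  obtain ⟨ρ, hρ, hP⟩ := Metric.eventually_nhds_iff.1
    (hev.and (e1.and (e2.and (e3.and e4))))
  obtain ⟨r, hr, hrρ, hr10⟩ : ∃ r : ℝ, 0 < r ∧ 2 * r < ρ ∧ r ≤ 1 / 10 := by
    refine ⟨min (ρ / 4) (1 / 10), by positivity, ?_, min_le_right _ _⟩
    have := min_le_left (ρ / 4) (1 / 10)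
    linarith
  obtain ⟨K, hKdef⟩ : ∃ K : Set ℂ, K = (Set.Icc (-r) r ×ℂ Set.Icc (-r) r) := ⟨_, rfl⟩
  have hKmem : ∀ p : ℂ, p ∈ K ↔ |p.re| ≤ r ∧ |p.im| ≤ r := by
    intro p
    rw [hKdef, Complex.mem_reProdIm, Set.mem_Icc, Set.mem_Icc, abs_le, abs_le]
  have hKc : IsCompact K := by
    rw [hKdef]
    exact isCompact_Icc.reProdIm isCompact_Icc
  have hKP : ∀ p ∈ K, dist p (0 : ℂ) < ρ := by
    intro p hp
    obtain ⟨h1, h2⟩ := (hKmem p).1 hp
    rw [dist_zero_right]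
    have := Complex.norm_le_abs_re_add_abs_im p
    linarith
  have hΦ : ContinuousOn (fun p : ℂ => (FC p).re) K := by
    intro p hp
    exact (Complex.continuous_re.continuousAt.comp
      (hP (hKP p hp)).1.2.2.1).continuousWithinAt
  have hmain := Pool.Agent.W583.HT.seq ℂ K hKc
    (fun N p => Real.log ‖Wc N p‖ / N) (fun p => (FC p).re) hΦ (by
    intro p p₀ hp₀ hp htp
    obtain ⟨⟨g1, g2, g2', g3⟩, g4, g5, g6, g7⟩ := hP (hKP p₀ hp₀)
    have hpN := fun N => hP (hKP (p N) (hp N))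
    refine core T ha' haa hab hbb hh haβ (by linarith) hb₁b hbM (by positivity)
      (by linarith) g1 htp (fun N => (hpN N).1.1)
      (fun N => ((hpN N).2.2.1.le.trans (min_le_left _ _)))
      (fun N => (hpN N).2.2.2.2.le) ?_ g2 (g3 _ htp (fun N => (hpN N).1.1))
    filter_upwards [hhalf] with N hN d hd1 hd2
    have h1 : (N : ℝ) / 2 ≤ d := by
      rw [div_le_iff₀ two_pos]
      have : (N : ℝ) ≤ 2 * d := by exact_mod_cast hd1
      linarith
    have h2 := hN d h1 hd2 (p N).re (p N).im (hpN N).2.2.2.1.le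
      ((hpN N).2.2.1.le.trans (min_le_right _ _))
    rw [Complex.re_add_im] at h2
    rw [mul_comm (N : ℝ)]
    exact h2)
  refine ⟨r, hr, hr10, fun ε hε => ?_⟩
  have hmin : 0 < min ε (L₀ / 4) := lt_min hε (by positivity)
  filter_upwards [hmain _ hmin, eventually_gt_atTop 0] with N h1 h2 ψ hψ
  have hN : (0 : ℝ) < N := by exact_mod_cast h2
  have hpK : ψ ∈ K := (hKmem _).2 ⟨hψ.1.le, hψ.2.le⟩
  have h3 := h1 _ hpK
  have h4 := (hP (hKP _ hpK)).2.1
  beta_reduce at h3 h4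
  constructor
  · intro hker
    rw [hker, norm_zero, Real.log_zero, zero_div, zero_sub, abs_neg] at h3
    have h5 := (le_abs_self _).trans (h3.trans (min_le_right _ _))
    linarith
  · have h5 := h3.trans (min_le_left _ _)
    have e1 : Real.log ‖Wc N ψ‖ - N * (FC ψ).re =
        N * (Real.log ‖Wc N ψ‖ / N - (FC ψ).re) := by
      field_simp
    rw [e1, abs_mul, abs_of_pos hN, mul_comm]
    gcongr

end Pool.Agent.N720.VS
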