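import Pool.Agent.N561.C.Stm
import Pool.Agent.N839.VS.Core

/-!
# VS/K3, part 1: convergence and continuity of the potential of the clasp
(helper720; adapted from `Pool.Agent.N839.VS.Base`)
-/

set_option autoImplicit false

namespace Pool.Agent.N720.VS

open Filter Finset Topology Metric
open Pool.Agent.W711.HT Pool.Agent.N561
open Pool.Agent.N839.VS (CR OR OR_sub_CR isOpen_OR isCompact_CR isOpen_DA isOpen_strip unif_seq
  cont_of_unif MM MM_pos one_le_MM factor_le Rp_le Sd_low Sd_succ Rp_succ half_sin absorb tend_floor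
  tend_ceil)
open scoped Real

/-- the parameters -/
def PQ (b : ℝ) : Set ℂ := {ψ | 2 * π * b + |ψ.re| < π}

theorem isOpen_PQ (b : ℝ) : IsOpen (PQ b) :=
  isOpen_lt (continuous_const.add Complex.continuous_re.abs) continuous_const

theorem mem_DA {a b h : ℝ} (ha : 0 < a) {δ : ℂ} (hδ : δ ∈ CR a b h) {ψ : ℂ}
    (hp : ψ ∈ PQ b) : (δ, ψ) ∈ DA := by
  have hπ := Real.pi_pos
  have h1 : |δ.re| ≤ b := by
    rw [abs_of_pos (ha.trans_le hδ.1)]; exact hδ.2.1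
  have h2 : 2 * π * |δ.re| ≤ 2 * π * b := by gcongr
  have h3 : 2 * π * b + |ψ.re| < π := hp
  show 2 * π * |δ.re| + |ψ.re| < π
  linarith

theorem b_half {b : ℝ} {ψ : ℂ} (hp : ψ ∈ PQ b) : b < 1 / 2 := by
  have hπ := Real.pi_pos
  have h3 : 2 * π * b + |ψ.re| < π := hp
  have := abs_nonneg ψ.re
  nlinarith

theorem mem_strip {a b h : ℝ} (ha : 0 < a) (hb : b < 1 / 2) {δ : ℂ}
    (hδ : δ ∈ CR a b h) : δ ∈ {δ : ℂ | 0 < δ.re ∧ δ.re < 1} :=
  ⟨ha.trans_le hδ.1, by linarith [hδ.2.1]⟩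

/-- the data of the interpolation -/
structure Dat where
  r : ℕ → ℂ × ℂ → ℂ
  s : ℕ → ℂ → ℂ
  d2 : ∀ N : ℕ, 1 ≤ N → DifferentiableOn ℂ (r N) DA
  d3 : ∀ N : ℕ, 1 ≤ N → DifferentiableOn ℂ (s N) {δ : ℂ | 0 < δ.re ∧ δ.re < 1}
  e2 : ∀ N d : ℕ, 1 ≤ N → ∀ ψ : ℂ, ((d : ℂ) / N, ψ) ∈ DA →
    Rp N d ψ = Complex.exp (N * r N ((d : ℂ) / N, ψ))
  e3 : ∀ N d : ℕ, 1 ≤ d → d < N → (Sd N d : ℂ) = Complex.exp (N * s N ((d : ℂ) / N))
  u2 : ∀ K ⊆ DA, IsCompact K → TendstoUniformlyOn r (fun p => RR p.1 p.2) atTop K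
  u3 : ∀ K ⊆ {δ : ℂ | 0 < δ.re ∧ δ.re < 1}, IsCompact K →
    TendstoUniformlyOn s (fun δ => LS (π * δ) / π) atTop K

theorem exists_Dat (hL : S_LAPL) : Nonempty Dat := by
  obtain ⟨r, s, b1, b2, b3, b4, b5, b6⟩ := hL
  exact ⟨⟨r, s, b1, b2, b3, b4, b5, b6⟩⟩

variable (T : Dat)

include T in
theorem cont_DA : ContinuousOn (fun p : ℂ × ℂ => RR p.1 p.2) DA :=
  cont_of_unif isOpen_DA (fun N hN => (T.d2 N hN).continuousOn) T.u2

include T in
theorem cont_S : ContinuousOn (fun δ : ℂ => LS (π * δ) / π) {δ : ℂ | 0 < δ.re ∧ δ.re < 1} :=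
  cont_of_unif isOpen_strip (fun N hN => (T.d3 N hN).continuousOn) T.u3

/-- the functions of the sum -/
noncomputable def qc (ψ : ℂ) (N : ℕ) (δ : ℂ) : ℂ :=
  T.r N (δ, ψ) - 3 * T.s N δ - π * Complex.I / 2 * (δ + δ ^ 2 - δ / N)

theorem qc_diff {a b h : ℝ} (ha : 0 < a) {ψ : ℂ} (hp : ψ ∈ PQ b) {N : ℕ} (hN : 1 ≤ N) :
    DifferentiableOn ℂ (qc T ψ N) (CR a b h) := by
  unfold qc
  have h1 : DifferentiableOn ℂ (fun δ : ℂ => T.r N (δ, ψ)) (CR a b h) :=
    (T.d2 N hN).comp (by fun_prop) fun δ hδ => mem_DA ha hδ hp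
  have h3 : DifferentiableOn ℂ (fun δ : ℂ => T.s N δ) (CR a b h) :=
    (T.d3 N hN).mono fun δ hδ => mem_strip ha (b_half hp) hδ
  exact (h1.sub (h3.const_mul 3)).sub (by fun_prop)

theorem poly_unif (a b h : ℝ) : TendstoUniformlyOn
    (fun (N : ℕ) (δ : ℂ) => π * Complex.I / 2 * (δ + δ ^ 2 - δ / N))
    (fun δ => π * Complex.I / 2 * (δ + δ ^ 2)) atTop (CR a b h) := by
  rw [Metric.tendstoUniformlyOn_iff]
  intro ε hε
  obtain ⟨M, hM⟩ := (isCompact_CR a b h).isBounded.exists_norm_le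
  have h1 : Tendsto (fun N : ℕ => (π / 2 * |M|) / (N : ℝ)) atTop (𝓝 0) :=
    tendsto_const_div_atTop_nhds_zero_nat _
  filter_upwards [h1.eventually_lt_const hε, eventually_gt_atTop 0] with N hN hN0 δ hδ
  have hN' : (0 : ℝ) < N := by exact_mod_cast hN0
  rw [dist_eq_norm]
  have e1 : π * Complex.I / 2 * (δ + δ ^ 2) - π * Complex.I / 2 * (δ + δ ^ 2 - δ / N) =
      π * Complex.I / 2 * (δ / N) := by ring
  rw [e1, norm_mul, norm_div, norm_div, norm_mul, Complex.norm_I, Complex.norm_real,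
    Real.norm_of_nonneg Real.pi_pos.le, Complex.norm_natCast]
  have h2 := (hM δ hδ).trans (le_abs_self M)
  have h4 : ‖(2 : ℂ)‖ = 2 := by norm_num
  rw [h4, mul_one]
  refine lt_of_le_of_lt ?_ hN
  rw [mul_div_assoc]
  have := Real.pi_pos
  gcongr

theorem qc_unif {a b h : ℝ} (ha : 0 < a) {p : ℂ} (hp : p ∈ PQ b) {ψ : ℕ → ℂ}
    (hψ : Tendsto ψ atTop (𝓝 p)) :
    TendstoUniformlyOn (fun N => qc T (ψ N) N) (QC p) atTop (CR a b h) := by
  have h1 := unif_seq isOpen_DA (cont_DA T) T.u2 (isCompact_CR a b h) hψ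
    fun δ hδ => mem_DA ha hδ hp
  have h3 := T.u3 (CR a b h) (fun δ hδ => mem_strip ha (b_half hp) hδ) (isCompact_CR a b h)
  have h4 : TendstoUniformlyOn (fun N δ => 3 * T.s N δ) (fun δ => 3 * (LS (π * δ) / π)) atTop
      (CR a b h) := by
    have := (uniformContinuous_const_smul (3 : ℂ)).comp_tendstoUniformlyOn h3
    simpa [Function.comp_def] using this
  exact (h1.sub h4).sub (poly_unif a b h)

include T in
theorem QC_diff {a b h : ℝ} (ha : 0 < a) {p : ℂ} (hp : p ∈ PQ b) :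
    DifferentiableOn ℂ (QC p) (OR a b h) := by
  have h1 := (qc_unif T ha hp (h := h) (ψ := fun _ => p) tendsto_const_nhds).mono (OR_sub_CR a b h)
  refine h1.tendstoLocallyUniformlyOn.differentiableOn ?_ (isOpen_OR a b h)
  exact Filter.eventually_atTop.2 ⟨1, fun N hN =>
    (qc_diff T ha hp hN).mono (OR_sub_CR a b h)⟩

include T in
/-- joint continuity -/
theorem QC_cont {a b h : ℝ} (ha : 0 < a) {p : ℂ} (hp : p ∈ PQ b) {δ : ℂ} (hδ : δ ∈ CR a b h) :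
    ContinuousAt (fun x : ℂ × ℂ => QC x.1 x.2) (p, δ) := by
  unfold QC
  have h1 : ContinuousAt (fun x : ℂ × ℂ => RR x.2 x.1) (p, δ) := by
    have e1 := (cont_DA T).continuousAt (isOpen_DA.mem_nhds (mem_DA ha hδ hp))
    exact ContinuousAt.comp' (g := fun p : ℂ × ℂ => RR p.1 p.2)
      (f := fun x : ℂ × ℂ => (x.2, x.1)) e1 (by fun_prop)
  have h3 : ContinuousAt (fun x : ℂ × ℂ => LS (π * x.2) / π) (p, δ) := by
    have e1 := (cont_S T).continuousAt (isOpen_strip.mem_nhds (mem_strip ha (b_half hp) hδ))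
    exact ContinuousAt.comp' (g := fun δ : ℂ => LS (π * δ) / π)
      (f := fun x : ℂ × ℂ => x.2) e1 (by fun_prop)
  exact (h1.sub (continuousAt_const.mul h3)).sub (by fun_prop)

include T in
theorem QC_unif {a b h : ℝ} (ha : 0 < a) {p : ℂ} (hp : p ∈ PQ b) :
    TendstoUniformlyOn (fun q : ℂ => QC q) (QC p) (𝓝 p) (OR a b h) := by
  rw [Metric.tendstoUniformlyOn_iff]
  intro ε hε
  have h1 : ∀ᶠ q in 𝓝 p, ∀ δ ∈ CR a b h, dist (QC p δ) (QC q δ) < ε := by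
    refine (isCompact_CR a b h).eventually_forall_of_forall_eventually fun δ hδ => ?_
    have c1 := QC_cont T ha hp hδ
    have c2 : ContinuousAt (fun x : ℂ × ℂ => QC p x.2) (p, δ) :=
      ContinuousAt.comp' (g := fun x : ℂ × ℂ => QC x.1 x.2)
        (f := fun x : ℂ × ℂ => (p, x.2)) c1 (by fun_prop)
    have c3 : ContinuousAt (fun x : ℂ × ℂ => dist (QC p x.2) (QC x.1 x.2)) (p, δ) := c2.dist c1
    refine c3.eventually_lt_const ?_
    simpa using hε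
  filter_upwards [h1] with q hq δ hδ
  exact hq δ (OR_sub_CR a b h hδ)

/-- a term of the sum -/
noncomputable def tm (N d : ℕ) (ψ : ℂ) : ℂ := (-Complex.I) ^ d *
  Complex.exp (-(Complex.I * π * (d * (d - 1)) / (2 * N))) * Rp N d ψ / (Sd N d : ℂ) ^ 3

theorem Wc_eq (N : ℕ) (ψ : ℂ) : Wc N ψ = ∑ d ∈ range N, tm N d ψ := rfl

theorem norm_tm {N d : ℕ} (hS : 0 < Sd N d) (ψ : ℂ) :
    ‖tm N d ψ‖ = ‖Rp N d ψ‖ / Sd N d ^ 3 := by
  unfold tm
  rw [norm_div, norm_mul, norm_mul, norm_pow, norm_neg, Complex.norm_I, one_pow, one_mul,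
    norm_pow, Complex.norm_real, Real.norm_of_nonneg hS.le]
  have e1 : ‖Complex.exp (-(Complex.I * π * (d * (d - 1)) / (2 * N)))‖ = 1 := by
    have e2 : -(Complex.I * π * (d * (d - 1)) / (2 * N)) =
        ((-(π * (d * (d - 1)) / (2 * N)) : ℝ) : ℂ) * Complex.I := by
      push_cast; ring
    rw [e2, Complex.norm_exp_ofReal_mul_I]
  rw [e1, one_mul]

theorem negI_pow (d : ℕ) : (-Complex.I) ^ d = Complex.exp (-(π / 2 * Complex.I * d)) := by
  have h1 : Complex.exp (-(π / 2 * Complex.I)) = -Complex.I := by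
    rw [Complex.exp_neg, Complex.exp_pi_div_two_mul_I, Complex.inv_I]
  rw [← h1, ← Complex.exp_nat_mul]
  congr 1
  ring

/-- the terms of the sum -/
theorem term_eq {a b h : ℝ} (ha : 0 < a) {p : ℂ} (hp : p ∈ PQ b) {N d : ℕ} (hN : 1 ≤ N)
    (hd : ((d : ℂ) / N) ∈ CR a b h) :
    tm N d p = Complex.exp (N * qc T p N ((d : ℂ) / N)) := by
  have hN' : (0 : ℝ) < N := by exact_mod_cast hN
  have hNc : (N : ℂ) ≠ 0 := by exact_mod_cast hN'.ne'
  have hb := b_half hp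
  have hre : ((d : ℂ) / N).re = (d : ℝ) / N := by
    rw [show ((d : ℂ) / N) = (((d : ℝ) / N : ℝ) : ℂ) by push_cast; rfl, Complex.ofReal_re]
  have hd1 : 1 ≤ d := by
    have h1 := ha.trans_le hd.1
    rw [hre] at h1
    have h2 : (0 : ℝ) < d := by
      by_contra hcon
      have h3 : (d : ℝ) = 0 := le_antisymm (not_lt.1 hcon) (Nat.cast_nonneg d)
      rw [h3, zero_div] at h1
      exact lt_irrefl _ h1
    exact_mod_cast h2
  have hd2 : d < N := by
    have h1 := hd.2.1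
    rw [hre, div_le_iff₀ hN'] at h1
    have h2 : (d : ℝ) < N := by nlinarith
    exact_mod_cast h2
  unfold tm
  rw [T.e2 N d hN p (mem_DA ha hd hp), T.e3 N d hd1 hd2, negI_pow, ← Complex.exp_add,
    ← Complex.exp_add, ← Complex.exp_nat_mul, ← Complex.exp_sub]
  unfold qc
  congr 1
  push_cast
  field_simp
  ring

end Pool.Agent.N720.VS
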