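import Pool.Agent.N720.VS.CTail

/-!
# VS/K3, part 3: from the window to the sum
(helper720; adapted from `Pool.Agent.N839.VS.Core`)
-/

set_option autoImplicit false

namespace Pool.Agent.N720.VS

open Filter Finset Topology Metric
open Pool.Agent.W711.HT Pool.Agent.N561
open Pool.Agent.N839.VS (CR OR OR_sub_CR isOpen_OR isCompact_CR isOpen_DA isOpen_strip unif_seq
  cont_of_unif MM MM_pos one_le_MM factor_le Rp_le Sd_low Sd_succ Rp_succ half_sin absorb tend_floor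
  tend_ceil)
open scoped Real

/-- from the window to the sum -/
theorem core (T : Dat) {a' a b b' b₁ h β L : ℝ} (ha' : 0 < a') (haa : a' < a) (hab : a < b)
    (hbb : b < b') (hh : 0 < h)
    (hβa : a * Real.log MM + 6 * √a ≤ β) (hb₁ : 1 / 6 ≤ b₁) (hb₁b : b₁ < b)
    (hbM : 4 * Real.cos (π * b₁) ^ 2 ≤ 1 / (2 * MM)) (hβ : 0 < β) (hβL : β < L)
    {p : ℂ} (hp : p ∈ PQ b') {ψ : ℕ → ℂ} (hψ : Tendsto ψ atTop (𝓝 p))
    (hpN : ∀ N, ψ N ∈ PQ b') (hψ2 : ∀ N, |(ψ N).im| ≤ 2)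
    (hψc : ∀ N, ‖2 * Complex.cos (ψ N) - 2‖ ≤ 1 / (2 * MM))
    (hup : ∀ᶠ N : ℕ in atTop, ∀ d : ℕ, N ≤ 2 * d → d < N →
      ‖Rp N d (ψ N)‖ ≤ Sd N d ^ 2 * Real.exp (N * β))
    (hTb : (QC p b).re < L)
    (hwin : Tendsto (fun N : ℕ => Real.log ‖∑ d ∈ Ico (⌈a * N⌉₊) (⌊b * N⌋₊),
      Complex.exp (N * qc T (ψ N) N ((d : ℂ) / N))‖ / N) atTop (𝓝 L)) :
    Tendsto (fun N : ℕ => Real.log ‖Wc N (ψ N)‖ / N) atTop (𝓝 L) := by
  have hb0 : 0 < b := (ha'.trans haa).trans hab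
  have hb' : b' < 1 / 2 := b_half hp
  -- the term at the end of the window
  obtain ⟨κ, hκ, hκ1, hκ2⟩ : ∃ κ : ℝ, 0 < κ ∧ κ ≤ L - β ∧ (QC p b).re < L - κ := by
    refine ⟨min (L - β) ((L - (QC p b).re) / 2), lt_min (by linarith) (by linarith),
      min_le_left _ _, ?_⟩
    have := min_le_right (L - β) ((L - (QC p b).re) / 2)
    linarith
  have hbmem : ((b : ℝ) : ℂ) ∈ OR a' b' h := by
    refine ⟨?_, ?_, ?_⟩
    · rw [Complex.ofReal_re]; linarith
    · rw [Complex.ofReal_re]; linarith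
    · rw [Complex.ofReal_im, abs_zero]; exact hh
  have hBt : Tendsto (fun N : ℕ => ((⌊b * N⌋₊ : ℕ) : ℂ) / N) atTop (𝓝 (b : ℂ)) := by
    have h1 := (Complex.continuous_ofReal.tendsto b).comp (tend_floor hb0)
    refine h1.congr fun N => ?_
    simp
  have hBmem : ∀ᶠ N : ℕ in atTop, ((⌊b * N⌋₊ : ℕ) : ℂ) / N ∈ OR a' b' h :=
    hBt.eventually_mem ((isOpen_OR a' b' h).mem_nhds hbmem)
  have hqB : Tendsto (fun N : ℕ => qc T (ψ N) N (((⌊b * N⌋₊ : ℕ) : ℂ) / N)) atTop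
      (𝓝 (QC p b)) := by
    have h1 := ((qc_unif T ha' hp hψ (h := h)).mono
      (OR_sub_CR a' b' h)).tendstoLocallyUniformlyOn
    refine h1.tendsto_comp ?_ hbmem ?_
    · exact (QC_diff T ha' hp).continuousOn _ hbmem
    · exact tendsto_nhdsWithin_iff.2 ⟨hBt, hBmem⟩
  have hqB' : ∀ᶠ N : ℕ in atTop,
      (qc T (ψ N) N (((⌊b * N⌋₊ : ℕ) : ℂ) / N)).re < L - κ :=
    ((Complex.continuous_re.tendsto _).comp hqB).eventually_lt_const hκ2
  have hlarge : ∀ᶠ N : ℕ in atTop, 1 / (2 * (b - b₁)) ≤ (N : ℝ) :=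
    tendsto_natCast_atTop_atTop.eventually_ge_atTop _
  -- the terms
  set W : ℕ → ℂ := fun N => ∑ d ∈ Ico (⌈a * N⌉₊) (⌊b * N⌋₊),
      Complex.exp (N * qc T (ψ N) N ((d : ℂ) / N)) with hW
  have hWeq : ∀ N : ℕ, 1 ≤ N → W N = ∑ d ∈ Ico (⌈a * N⌉₊) (⌊b * N⌋₊), tm N d (ψ N) := by
    intro N hN
    have hN' : (0 : ℝ) < N := by exact_mod_cast hN
    rw [hW]
    refine Finset.sum_congr rfl fun d hd => ?_
    rw [Finset.mem_Ico] at hd
    have g1 : a * N ≤ d := Nat.le_of_ceil_le hd.1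
    have g2 : (d : ℝ) < b * N := Nat.lt_of_lt_floor hd.2
    refine (term_eq T ha' (hpN N) hN (h := h) ?_).symm
    rw [show ((d : ℂ) / N) = (((d : ℝ) / N : ℝ) : ℂ) by push_cast; rfl]
    refine ⟨?_, ?_, ?_⟩
    · rw [Complex.ofReal_re, le_div_iff₀ hN']
      nlinarith
    · rw [Complex.ofReal_re, div_le_iff₀ hN']
      nlinarith
    · rw [Complex.ofReal_im, abs_zero]; exact hh.le
  have hlt : ∀ N d : ℕ, d < ⌊b * N⌋₊ → 2 * d < N := by
    intro N d hd
    have g2 : (d : ℝ) < b * N := Nat.lt_of_lt_floor hd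
    have hN0 : (0 : ℝ) < N := by
      by_contra hcon
      have h3 : (N : ℝ) = 0 := le_antisymm (not_lt.1 hcon) (Nat.cast_nonneg N)
      rw [h3, mul_zero] at g2
      exact absurd g2 (not_lt.2 (Nat.cast_nonneg d))
    have g4 : (2 * d : ℝ) < N := by nlinarith
    exact_mod_cast g4
  have hsub : ∀ N : ℕ, Ico (⌈a * N⌉₊) (⌊b * N⌋₊) ⊆ range N := by
    intro N d hd
    rw [Finset.mem_Ico] at hd
    rw [Finset.mem_range]
    have := hlt N d hd.2
    omega
  set S : ℕ → ℂ := fun N => ∑ d ∈ range N \ Ico (⌈a * N⌉₊) (⌊b * N⌋₊), tm N d (ψ N) with hS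
  have hk : ∀ N : ℕ, 1 ≤ N → Wc N (ψ N) = W N + S N := by
    intro N hN
    rw [hWeq N hN, hS, Wc_eq, ← Finset.sum_sdiff (hsub N)]
    ring
  have hSb : ∀ᶠ N : ℕ in atTop, ‖S N‖ ≤ N * Real.exp (N * (L - κ)) := by
    filter_upwards [hqB', hBmem, hlarge, eventually_ge_atTop 1, hup] with N h1 h2 h3 hN hupN
    have hN' : (0 : ℝ) < N := by exact_mod_cast hN
    have hbound : ∀ d ∈ range N \ Ico (⌈a * N⌉₊) (⌊b * N⌋₊),
        ‖tm N d (ψ N)‖ ≤ Real.exp (N * (L - κ)) := by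
      intro d hd
      rw [Finset.mem_sdiff, Finset.mem_range, Finset.mem_Ico, not_and_or, not_le, not_lt] at hd
      obtain ⟨hdN, hd⟩ := hd
      by_cases hd2 : 2 * d ≤ N
      · rcases hd with hd | hd
        · have g2 : (d : ℝ) < a * N := Nat.lt_ceil.1 hd
          refine (tm_low (ha'.trans haa) hN hd2 g2.le (hψ2 N)).trans ?_
          refine Real.exp_le_exp.2 (mul_le_mul_of_nonneg_left ?_ hN'.le)
          linarith
        · have g2 : b * N < (⌊b * N⌋₊ : ℝ) + 1 := Nat.lt_floor_add_one _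
          have g3 : b₁ * N ≤ (⌊b * N⌋₊ : ℝ) + 1 / 2 := by
            have e0 : 0 < b - b₁ := by linarith
            rw [div_le_iff₀ (by positivity)] at h3
            nlinarith
          refine (tm_high hb₁ (by linarith) hbM hN hd hd2 g3 (hψc N)).trans ?_
          have e1 := term_eq T ha' (hpN N) hN (OR_sub_CR _ _ _ h2)
          rw [e1, Complex.norm_exp]
          refine Real.exp_le_exp.2 ?_
          rw [show ((N : ℂ) * qc T (ψ N) N (((⌊b * N⌋₊ : ℕ) : ℂ) / N)).re =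
            N * (qc T (ψ N) N (((⌊b * N⌋₊ : ℕ) : ℂ) / N)).re by
              rw [← Complex.ofReal_natCast, Complex.re_ofReal_mul]]
          exact mul_le_mul_of_nonneg_left h1.le hN'.le
      · refine (tm_up (by omega) hdN (hupN d (by omega) hdN)).trans ?_
        refine Real.exp_le_exp.2 (mul_le_mul_of_nonneg_left ?_ hN'.le)
        linarith
    refine (norm_sum_le _ _).trans ((Finset.sum_le_card_nsmul _ _ _ hbound).trans ?_)
    rw [nsmul_eq_mul]
    have e3 : (((range N \ Ico (⌈a * N⌉₊) (⌊b * N⌋₊)).card : ℕ) : ℝ) ≤ N := by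
      have := Finset.card_le_card (Finset.sdiff_subset
        (s := range N) (t := Ico (⌈a * N⌉₊) (⌊b * N⌋₊)))
      rw [Finset.card_range] at this
      exact_mod_cast this
    gcongr
  have hfin := absorb (hβ.trans hβL) hκ hwin hSb
  refine hfin.congr' ?_
  filter_upwards [eventually_ge_atTop 1] with N hN
  rw [hk N hN]

end Pool.Agent.N720.VS
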