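import Pool.Agent.N720.VS.CBase
import Pool.Agent.N207.VS.Lapl

/-!
# VS/K3, part 2: the terms outside the window
(helper720; adapted from `Pool.Agent.N839.VS.Tails`)
-/

set_option autoImplicit false

namespace Pool.Agent.N720.VS

open Filter Finset Topology Metric
open Pool.Agent.W711.HT Pool.Agent.N561
open Pool.Agent.N839.VS (CR OR OR_sub_CR isOpen_OR isCompact_CR isOpen_DA isOpen_strip unif_seq
  cont_of_unif MM MM_pos one_le_MM factor_le Rp_le Sd_low Sd_succ Rp_succ half_sin absorb tend_floor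
  tend_ceil)
open Pool.Agent.N207.VS (Sd_pos Sd_full)
open scoped Real

/-- the terms below the window -/
theorem tm_low {a : ℝ} (ha : 0 < a) {N d : ℕ} (hN : 1 ≤ N) (hd : 2 * d ≤ N)
    (hda : (d : ℝ) ≤ a * N) {ψ : ℂ} (hψ : |ψ.im| ≤ 2) :
    ‖tm N d ψ‖ ≤ Real.exp (N * (a * Real.log MM + 6 * √a)) := by
  have hN' : (0 : ℝ) < N := by exact_mod_cast hN
  have hS := Sd_low hN d hd
  have hS0 : 0 < Sd N d := (Real.exp_pos _).trans_le hS
  rw [norm_tm hS0, div_le_iff₀ (by positivity)]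
  have h1 : MM ^ d ≤ Real.exp (a * N * Real.log MM) := by
    rw [show MM ^ d = Real.exp (d * Real.log MM) by
      rw [Real.exp_nat_mul, Real.exp_log MM_pos]]
    refine Real.exp_le_exp.2 ?_
    have := Real.log_nonneg one_le_MM
    gcongr
  have h2 : √((N : ℝ) * d) ≤ N * √a := by
    rw [show (N : ℝ) * √a = √(N * (a * N)) by
      rw [show (N : ℝ) * (a * N) = a * N ^ 2 by ring, Real.sqrt_mul ha.le,
        Real.sqrt_sq hN'.le]
      ring]
    exact Real.sqrt_le_sqrt (by gcongr)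
  have h3 : Real.exp (-(2 * (N * √a))) ≤ Sd N d :=
    (Real.exp_le_exp.2 (by linarith)).trans hS
  have h4 : Real.exp (-(2 * (N * √a))) ^ 3 ≤ Sd N d ^ 3 := by gcongr
  calc ‖Rp N d ψ‖ ≤ MM ^ d := Rp_le hψ N d
    _ ≤ Real.exp (a * N * Real.log MM) := h1
    _ = Real.exp (N * (a * Real.log MM + 6 * √a)) * Real.exp (-(2 * (N * √a))) ^ 3 := by
        rw [← Real.exp_nat_mul, ← Real.exp_add]
        congr 1
        push_cast
        ring
    _ ≤ _ := by gcongr

/-- one step above the window -/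
theorem ratio_le {b : ℝ} (hb : 1 / 6 ≤ b) (hb2 : b < 1 / 2)
    (hbM : 4 * Real.cos (π * b) ^ 2 ≤ 1 / (2 * MM)) {N d : ℕ} (hN : 1 ≤ N)
    (hd : 2 * (d + 1) ≤ N) (hdb : b * N ≤ d + 1 / 2) {ψ : ℂ}
    (hψ2 : ‖2 * Complex.cos ψ - 2‖ ≤ 1 / (2 * MM)) :
    ‖tm N (d + 1) ψ‖ ≤ ‖tm N d ψ‖ := by
  have hN' : (0 : ℝ) < N := by exact_mod_cast hN
  have hπ := Real.pi_pos
  have hM := MM_pos
  have hM1 := one_le_MM
  have hd' : ((d : ℝ) + 1) * 2 ≤ N := by exact_mod_cast (by omega : (d + 1) * 2 ≤ N)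
  have hs : 1 ≤ 2 * Real.sin (π * (d + 1) / N) := by
    refine half_sin ?_ ?_
    · rw [le_div_iff₀ hN']
      have : (N : ℝ) / 6 ≤ d + 1 := by nlinarith
      nlinarith
    · rw [div_le_div_iff₀ hN' (by norm_num)]
      nlinarith
  have hph : 2 + 2 * Real.cos (phi N d) ≤ 1 / (2 * MM) := by
    refine le_trans ?_ hbM
    have e1 : phi N d = 2 * (π * (2 * d + 1) / (2 * N)) := by
      unfold phi
      field_simp
    rw [e1, Real.cos_two_mul]
    have e2 : Real.cos (π * (2 * d + 1) / (2 * N)) ≤ Real.cos (π * b) := by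
      refine Real.cos_le_cos_of_nonneg_of_le_pi (by positivity) ?_ ?_
      · rw [div_le_iff₀ (by positivity)]
        nlinarith
      · rw [le_div_iff₀ (by positivity)]
        nlinarith
    have e3 : 0 ≤ Real.cos (π * (2 * d + 1) / (2 * N)) := by
      refine Real.cos_nonneg_of_neg_pi_div_two_le_of_le ?_ ?_
      · have : 0 ≤ π * (2 * d + 1) / (2 * N) := by positivity
        linarith
      · rw [div_le_div_iff₀ (by positivity) (by norm_num)]
        nlinarith
    nlinarith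
  have hph0 : 0 ≤ 2 + 2 * Real.cos (phi N d) := by
    have := Real.neg_one_le_cos (phi N d)
    linarith
  have hf : ‖2 * Complex.cos ψ + 2 * (Real.cos (phi N d) : ℂ)‖ ≤ 1 := by
    have e1 : 2 * Complex.cos ψ + 2 * (Real.cos (phi N d) : ℂ) =
        (2 * Complex.cos ψ - 2) + ((2 + 2 * Real.cos (phi N d) : ℝ) : ℂ) := by
      push_cast
      ring
    rw [e1]
    refine (norm_add_le _ _).trans ?_
    rw [Complex.norm_real, Real.norm_of_nonneg hph0]
    have h1 : 1 / (2 * MM) + 1 / (2 * MM) = 1 / MM := by field_simp; norm_num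
    have h2 : 1 / MM ≤ 1 := by rw [div_le_one hM]; exact hM1
    linarith
  have hS0 : 0 < Sd N d := Sd_pos (by omega)
  have hS1 : 0 < Sd N (d + 1) := Sd_pos (by omega)
  rw [norm_tm hS0, norm_tm hS1, Rp_succ, Sd_succ, norm_mul, mul_pow]
  rw [div_le_div_iff₀ (by positivity) (by positivity)]
  have h3 : (1 : ℝ) ≤ (2 * Real.sin (π * (d + 1) / N)) ^ 3 := one_le_pow₀ hs
  calc ‖Rp N d ψ‖ * ‖2 * Complex.cos ψ + 2 * (Real.cos (phi N d) : ℂ)‖ * Sd N d ^ 3 ≤
        ‖Rp N d ψ‖ * 1 * Sd N d ^ 3 := by gcongr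
    _ = ‖Rp N d ψ‖ * (Sd N d ^ 3 * 1) := by ring
    _ ≤ ‖Rp N d ψ‖ * (Sd N d ^ 3 * (2 * Real.sin (π * (d + 1) / N)) ^ 3) := by gcongr

/-- the terms above the window -/
theorem tm_high {b : ℝ} (hb : 1 / 6 ≤ b) (hb2 : b < 1 / 2)
    (hbM : 4 * Real.cos (π * b) ^ 2 ≤ 1 / (2 * MM)) {N B d : ℕ} (hN : 1 ≤ N)
    (hBd : B ≤ d) (hd : 2 * d ≤ N) (hdb : b * N ≤ B + 1 / 2) {ψ : ℂ}
    (hψ2 : ‖2 * Complex.cos ψ - 2‖ ≤ 1 / (2 * MM)) :
    ‖tm N d ψ‖ ≤ ‖tm N B ψ‖ := by
  induction d, hBd using Nat.le_induction with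
  | base => exact le_rfl
  | succ d hBd ih =>
    refine (ratio_le hb hb2 hbM hN hd ?_ hψ2).trans (ih (by omega))
    have : (B : ℝ) ≤ d := by exact_mod_cast hBd
    linarith

/-- reflection -/
theorem Sd_mul {N n : ℕ} (hn : n < N) : Sd N n * Sd N (N - 1 - n) = N := by
  have hN0 : (N : ℝ) ≠ 0 := by
    have : 0 < N := by omega
    exact_mod_cast this.ne'
  rw [← Sd_full (N := N) (by omega)]
  have e : N - 1 = n + (N - 1 - n) := by omega
  conv_rhs => rw [e]
  unfold Sd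
  rw [Finset.prod_range_add]
  congr 1
  rw [← Finset.prod_range_reflect]
  refine Finset.prod_congr rfl fun k hk => ?_
  rw [Finset.mem_range] at hk
  congr 1
  have e2 : π * (((N - 1 - n - 1 - k : ℕ) : ℝ) + 1) / N = π - π * (((n + k : ℕ) : ℝ) + 1) / N := by
    have e3 : ((N - 1 - n - 1 - k : ℕ) : ℝ) = (N : ℝ) - 1 - n - 1 - k := by
      rw [Nat.cast_sub (by omega), Nat.cast_sub (by omega), Nat.cast_sub (by omega),
        Nat.cast_sub (by omega)]
      simp
    rw [e3]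
    push_cast
    field_simp
    ring
  rw [e2, Real.sin_pi_sub]

theorem Sd_le_one {N k : ℕ} (h : 6 * k ≤ N) (hN : 1 ≤ N) : Sd N k ≤ 1 := by
  have hN' : (0 : ℝ) < N := by exact_mod_cast hN
  have hπ := Real.pi_pos
  induction k with
  | zero => simp [Sd]
  | succ k ih =>
    have ih' := ih (by omega)
    have hS0 : 0 < Sd N k := Sd_pos (by omega)
    rw [Sd_succ]
    have h1 : Real.sin (π * (k + 1) / N) ≤ Real.sin (π / 6) := by
      refine Real.sin_le_sin_of_le_of_le_pi_div_two ?_ (by linarith) ?_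
      · have : 0 ≤ π * ((k : ℝ) + 1) / N := by positivity
        linarith
      · rw [div_le_div_iff₀ hN' (by norm_num)]
        have : (6 : ℝ) * (k + 1) ≤ N := by exact_mod_cast h
        nlinarith
    rw [Real.sin_pi_div_six] at h1
    have h2 : 2 * Real.sin (π * (k + 1) / N) ≤ 1 := by linarith
    calc Sd N k * (2 * Real.sin (π * (k + 1) / N)) ≤ Sd N k * 1 := by gcongr
      _ ≤ 1 := by linarith

theorem Sd_mono {N m j : ℕ} (hm : N < 6 * m) (hmj : m ≤ j) (hj : j + m < N) :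
    Sd N m ≤ Sd N j := by
  have hπ := Real.pi_pos
  have hN' : (0 : ℝ) < N := by
    have : 0 < N := by omega
    exact_mod_cast this
  induction j, hmj using Nat.le_induction with
  | base => exact le_rfl
  | succ j hj2 ih =>
    have ih' := ih (by omega)
    have hS0 : 0 < Sd N j := Sd_pos (by omega)
    rw [Sd_succ]
    refine ih'.trans ?_
    have h0 : (N : ℝ) < 6 * m := by exact_mod_cast hm
    have h00 : (m : ℝ) ≤ j := by exact_mod_cast hj2
    have h01 : (j : ℝ) + 1 + m < N := by exact_mod_cast hj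
    have h1 : 1 ≤ 2 * Real.sin (π * (j + 1) / N) := by
      rcases le_total (π * ((j : ℝ) + 1) / N) (π / 2) with h | h
      · refine half_sin ?_ h
        rw [le_div_iff₀ hN']
        nlinarith
      · rw [← Real.sin_pi_sub]
        refine half_sin ?_ (by linarith)
        have : π * ((j : ℝ) + 1) / N ≤ π * (5 / 6) := by
          rw [div_le_iff₀ hN']
          nlinarith
        linarith
    calc Sd N j = Sd N j * 1 := by ring
      _ ≤ _ := by gcongr

theorem one_le_Sd {N d : ℕ} (h1 : N ≤ 2 * d) (h2 : d < N) : 1 ≤ Sd N d := by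
  have hN' : (1 : ℝ) ≤ N := by
    have : 1 ≤ N := by omega
    exact_mod_cast this
  have hS0 : 0 < Sd N d := Sd_pos h2
  have hm := Sd_mul h2
  have hS1 : 0 < Sd N (N - 1 - d) := Sd_pos (by omega)
  by_cases h : 6 * (N - 1 - d) ≤ N
  · have h3 := Sd_le_one h (by omega)
    by_contra hcon
    rw [not_le] at hcon
    nlinarith
  · have h3 := Sd_mono (N := N) (m := N - 1 - d) (j := d) (by omega) (by omega) (by omega)
    by_contra hcon
    rw [not_le] at hcon
    nlinarith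

/-- the terms of the upper half -/
theorem tm_up {N d : ℕ} (h1 : N ≤ 2 * d) (h2 : d < N) {ψ : ℂ} {A : ℝ}
    (h : ‖Rp N d ψ‖ ≤ Sd N d ^ 2 * Real.exp A) : ‖tm N d ψ‖ ≤ Real.exp A := by
  have hS := one_le_Sd h1 h2
  have hS0 : 0 < Sd N d := by linarith
  rw [norm_tm hS0, div_le_iff₀ (by positivity)]
  refine h.trans ?_
  calc Sd N d ^ 2 * Real.exp A = Real.exp A * (Sd N d ^ 2 * 1) := by ring
    _ ≤ Real.exp A * (Sd N d ^ 2 * Sd N d) := by gcongr
    _ = Real.exp A * Sd N d ^ 3 := by ring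

/-- the choice of the window -/
theorem exists_ab {β : ℝ} (hβ : 0 < β) : ∃ a₁ b₁ : ℝ, 0 < a₁ ∧ a₁ < 1 / 6 ∧ 1 / 3 < b₁ ∧
    b₁ < 1 / 2 ∧ (∀ a : ℝ, 0 < a → a ≤ a₁ → a * Real.log MM + 6 * √a ≤ β) ∧
    4 * Real.cos (π * b₁) ^ 2 ≤ 1 / (2 * MM) := by
  obtain ⟨a₁, b₁, h1, h2, h3, h4, h5, h6⟩ := Pool.Agent.N839.VS.exists_ab hβ
  refine ⟨a₁, b₁, h1, h2, h3, h4, fun a ha haa => ?_, h6⟩
  have h7 := h5 a ha haa
  have h8 := Real.log_nonneg one_le_MM
  have h9 := Real.sqrt_nonneg a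
  nlinarith [mul_nonneg ha.le h8]

end Pool.Agent.N720.VS
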